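import Pool.Agent.Helper74.DR.St

set_option autoImplicit false

namespace Pool.Agent.Helper2.DR

open Pool.Agent.Helper74.DR

variable {T : Type}

/-- the closing bracket on a stack of opening brackets -/
private theorem cl_some (x : T) (w : List (Option (T × Bool))) (v : T) (s : List T)
    (τ : List (Option T)) (h : Tr (some (x, false) :: w) ((v :: s).map some) τ) :
    v = x ∧ Tr w (s.map some) τ := by
  obtain ⟨y, σ', h1, h2, h3⟩ := (tr_cl _ _ _ _).1 h
  simp only [List.map_cons, List.cons.injEq] at h1
  obtain ⟨rfl, rfl⟩ := h1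
  rcases h2 with h2 | h2
  · simp at h2
  · simp only [Option.some.injEq] at h2
    exact ⟨h2, h3⟩

/-- the closing bracket on a joker -/
private theorem cl_none (x : T) (w : List (Option (T × Bool))) (σ τ : List (Option T))
    (h : Tr (some (x, false) :: w) (none :: σ) τ) : Tr w σ τ := by
  obtain ⟨y, σ', h1, -, h3⟩ := (tr_cl _ _ _ _).1 h
  simp only [List.cons.injEq] at h1
  obtain ⟨-, rfl⟩ := h1
  exact h3

private theorem claim (x : T) (s : List T) (τ : List (Option T)) :
    ∀ (C V : List T), Odd C.length → Odd V.length → C.length ≤ V.length →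
    Tr (ew C ++ [some (x, false)]) ((V ++ s).map some) τ →
    (∃ j, 2 * j < V.length ∧ τ = (V.drop (2 * j) ++ s).map some) ∨
      ∃ s', s = x :: s' ∧ τ = s'.map some
  | [], _, hC, _, _, _ => absurd hC (by simp)
  | [c], V, _, hV, _, h => by
    obtain ⟨v, V', rfl⟩ : ∃ v V', V = v :: V' := by
      rcases V with _ | ⟨v, V'⟩
      · exact absurd hV (by simp)
      · exact ⟨v, V', rfl⟩
    have h1 : Tr (none :: [some (x, false)]) ((v :: V' ++ s).map some) τ := h
    rcases (tr_jk _ _ _).1 h1 with h2 | ⟨y, σ', h2, h3⟩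
    · -- pushed
      have h3 := cl_none x [] _ τ h2
      left
      refine ⟨0, by simp, ?_⟩
      rw [tr_nil] at h3
      rw [← h3]
      simp
    · simp only [List.cons_append, List.map_cons, List.cons.injEq] at h2
      obtain ⟨-, rfl⟩ := h2
      rcases V' with _ | ⟨v₂, V''⟩
      · -- the top of `s` is popped
        rcases s with _ | ⟨y', s'⟩
        · obtain ⟨y'', σ'', h4, -⟩ := (tr_cl _ _ _ _).1 h3
          simp at h4
        · obtain ⟨rfl, h5⟩ := cl_some x [] y' s' τ h3
          right
          exact ⟨s', rfl, (tr_nil _ _).1 h5 ▸ rfl⟩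
      · obtain ⟨-, h5⟩ := cl_some x [] v₂ (V'' ++ s) τ h3
        left
        refine ⟨1, ?_, ?_⟩
        · have h6 : Odd (V''.length + 2) := by simpa using hV
          have h7 : V''.length ≠ 0 := by
            intro h8
            rw [h8] at h6
            exact absurd h6 (by decide)
          simp only [List.length_cons]
          omega
        · rw [tr_nil] at h5
          rw [← h5]
          simp
  | c₁ :: c₂ :: [], V, hC, _, _, _ => absurd hC (by simp)
  | c₁ :: c₂ :: c₃ :: C', V, hC, hV, hCV, h => by
    obtain ⟨v₁, v₂, V', rfl⟩ : ∃ v₁ v₂ V', V = v₁ :: v₂ :: V' := by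
      rcases V with _ | ⟨v₁, _ | ⟨v₂, V'⟩⟩
      · exact absurd hV (by simp)
      · simp at hCV
      · exact ⟨v₁, v₂, V', rfl⟩
    have hC' : Odd (c₃ :: C').length := by
      obtain ⟨k, hk⟩ := hC
      simp only [List.length_cons] at hk ⊢
      exact ⟨k - 1, by omega⟩
    have hV' : Odd V'.length := by
      obtain ⟨k, hk⟩ := hV
      simp only [List.length_cons] at hk
      simp only [List.length_cons] at hCV
      exact ⟨k - 1, by omega⟩
    have h1 : Tr (none :: some (c₂, false) :: (ew (c₃ :: C') ++ [some (x, false)]))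
        ((v₁ :: v₂ :: V' ++ s).map some) τ := h
    rcases (tr_jk _ _ _).1 h1 with h2 | ⟨y, σ', h2, h3⟩
    · have h3 := cl_none c₂ _ _ τ h2
      exact claim x s τ (c₃ :: C') (v₁ :: v₂ :: V') hC' hV
        (by simp only [List.length_cons] at hCV ⊢; omega) h3
    · simp only [List.cons_append, List.map_cons, List.cons.injEq] at h2
      obtain ⟨-, rfl⟩ := h2
      obtain ⟨-, h4⟩ := cl_some c₂ _ v₂ (V' ++ s) τ h3
      rcases claim x s τ (c₃ :: C') V' hC' hV'
        (by simp only [List.length_cons] at hCV ⊢; omega) h4 with ⟨j, hj, e⟩ | h5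
      · left
        refine ⟨j + 1, by simp only [List.length_cons]; omega, ?_⟩
        rw [e]
        have : (v₁ :: v₂ :: V').drop (2 * (j + 1)) = V'.drop (2 * j) := by
          rw [show 2 * (j + 1) = (2 * j + 1) + 1 by ring]
          simp only [List.drop_succ_cons]
        rw [this]
      · exact Or.inr h5

theorem hGB : StGB := by
  intro T x U hU s τ h
  unfold gB at h
  obtain ⟨ρ, h1, h2⟩ := (tr_append _ _ _ _).1 h
  rw [tr_ops, List.reverse_reverse] at h1
  subst h1
  rw [← List.map_append] at h2
  exact claim x s τ U U hU hU le_rfl h2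

end Pool.Agent.Helper2.DR
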